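import Pool.Agent.P.MP_e94e4b_nt.MT.All

/-! Prime pairs `N^2 + x`, `(N + g)^2 - x` in the window at every square of `k[T]`, `k` a finite
field of characteristic two, for a positive share of the `g` of bounded degree. -/

namespace Pool.Agent.Results.MP_e94e4b_nt.CharTwoPrimePairs

open Polynomial

theorem result : ∃ κ t K : ℕ, 1 ≤ κ ∧ ∀ D : ℕ, ∃ n0 : ℕ,
    ∀ (k : Type) [Field k] [Finite k] [CharP k 2] (N : k[X]) (m : ℕ), N.Monic →
      n0 ≤ N.natDegree → |(m : ℝ) - N.natDegree| ≤ N.natDegree / κ →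
      Nat.card k ^ (D + 1) ≤ t * (1 + Set.ncard {g : k[X] | g ≠ 0 ∧ g.natDegree ≤ D ∧
        Nat.card k ^ m ≤ Nat.card k ^ (t * D) * N.natDegree ^ K *
          Set.ncard {x : k[X] | x.degree < m ∧ Irreducible (N ^ 2 + x) ∧
            Irreducible ((N + g) ^ 2 - x)}}) :=
  Pool.Agent.P.MP_e94e4b_nt.MT.last Pool.Agent.P.MP_e94e4b_nt.MT.t_FD

end Pool.Agent.Results.MP_e94e4b_nt.CharTwoPrimePairs
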