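import Pool.Agent.P.MP_e94e4b_nt.LF.All

namespace Pool.Agent.Results.MP_e94e4b_nt.LargePrimePairs

/-- For a set of `N` of positive lower logarithmic density, a positive proportion of the `k` with
`2 ≤ k ≤ 2 N` have `N ^ 2 + k + 1` and `(N + 1) ^ 2 - k` both divisible by a prime larger than
`N ^ (2 - η)`, with prescribed parities of the numbers of prime factors. -/
theorem result : ∀ η : ℝ, 0 < η → ∀ s t : ℕ, s < 2 → t < 2 →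
    ∃ c : ℝ, 0 < c ∧ ∃ Y0 : ℕ, ∀ Y : ℕ, Y0 ≤ Y → ∃ B : Finset ℕ,
      (∀ N ∈ B, 1 ≤ N ∧ N ≤ Y ∧ c * N ≤ (Set.ncard {k : ℕ | 2 ≤ k ∧ k ≤ 2 * N ∧
        ArithmeticFunction.cardFactors (N ^ 2 + k + 1) % 2 = s ∧
        ArithmeticFunction.cardFactors ((N + 1) ^ 2 - k) % 2 = t ∧
        (∃ p : ℕ, p.Prime ∧ p ∣ N ^ 2 + k + 1 ∧ (N : ℝ) ^ (2 - η) < p) ∧
        (∃ q : ℕ, q.Prime ∧ q ∣ (N + 1) ^ 2 - k ∧ (N : ℝ) ^ (2 - η) < q)} : ℝ)) ∧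
      c * Real.log Y ≤ ∑ N ∈ B, 1 / (N : ℝ) := by
  classical
  intro η hη s t hs ht
  obtain ⟨c, hc, h⟩ := Pool.Agent.P.LF.c_FIN η s t hη hs ht
  obtain ⟨Y0, h⟩ := Filter.eventually_atTop.1 h
  refine ⟨c, hc, Y0, fun Y hY => ⟨_, fun N hN => ?_,
    (h Y hY).trans_eq (Pool.Agent.P.PAR.lm_eq _ _)⟩⟩
  obtain ⟨h1, h2⟩ := Finset.mem_filter.1 hN
  refine ⟨(Finset.mem_Icc.1 h1).1, (Finset.mem_Icc.1 h1).2, h2.trans_eq ?_⟩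
  rw [Pool.Agent.P.LF.cf, ← Set.ncard_coe_finset]
  congr 2
  ext k
  simp [and_assoc]

end Pool.Agent.Results.MP_e94e4b_nt.LargePrimePairs
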