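import Pool.Agent.P.MP_e94e4b_nt.LG.APAll
import Pool.Agent.P.MP_e94e4b_nt.LG.Phi

/-! The prime number theorem, with a power saving and in progressions, in windows of length a
power below the square root around every square, over a finite field of characteristic two. -/

namespace Pool.Agent.Results.MP_e94e4b_nt.LegendreChar2

open Polynomial

theorem result :
    ∃ κ δ ν₀ : ℕ, 0 < κ ∧ 0 < δ ∧
      ∀ (k : Type) [Field k] [Finite k] [CharP k 2] (N r a : k[X]) (m : ℕ), N.Monic →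
        ν₀ ≤ N.natDegree → N.natDegree ≤ m + N.natDegree / κ →
        m ≤ N.natDegree + N.natDegree / κ → r ≠ 0 → IsCoprime a r →
        δ * r.natDegree ≤ N.natDegree →
        |2 * (N.natDegree : ℝ) *
            (Set.ncard {b : k[X] | b.degree < r.degree ∧ IsCoprime b r} : ℝ) *
            (Set.ncard {x : k[X] | x.degree < (m : ℕ) ∧ Irreducible (N ^ 2 + x) ∧
              r ∣ N ^ 2 + x - a} : ℝ) / (Nat.card k : ℝ) ^ m - 1| ≤
          1 / (Nat.card k : ℝ) ^ (N.natDegree / δ) := by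
  classical
  obtain ⟨κ, δ, ν0, hκ, hδ, h⟩ := Pool.Agent.P.MP_e94e4b_nt.LG.t_APFIN
  refine ⟨κ, 2 * δ, ν0, hκ, by omega, fun k _ _ _ N r a m hN h0 h1 h2 hr ha hd => ?_⟩
  have key := h k N r a m h0 ⟨hN, h1, h2⟩ hr ha (le_trans (Nat.mul_le_mul_right _ (by omega)) hd)
  have hφ := Pool.Agent.P.MP_e94e4b_nt.LG.phi_eq hr
  have hle : (((Pool.Agent.P.MP_8be758_nt.C2.low k r.natDegree).filter
      (fun b => IsCoprime b r)).card : ℝ) ≤ Pool.Agent.P.MP_8be758_nt.L2.qq k ^ r.natDegree := by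
    rw [← Pool.Agent.P.MP_8be758_nt.L2.card_low']
    exact_mod_cast Finset.card_filter_le _ _
  rw [← Set.ncard_coe_finset, Finset.coe_filter] at key hφ hle
  simp only [Pool.Agent.P.MP_8be758_nt.C2.mem_low, ← degree_eq_natDegree hr] at key hφ hle
  have hq := Pool.Agent.P.MP_8be758_nt.L2.qq_pos (k := k)
  have e1 : r.natDegree + N.natDegree / (2 * δ) ≤ N.natDegree / δ := by
    have a1 : r.natDegree ≤ N.natDegree / (2 * δ) :=
      (Nat.le_div_iff_mul_le (by omega)).2 (by rw [mul_comm]; exact hd)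
    have a2 : N.natDegree / (2 * δ) = N.natDegree / δ / 2 := by
      rw [Nat.div_div_eq_div_mul, mul_comm]
    omega
  have e2 := Pool.Agent.P.MP_8be758_nt.L2.qq_pow_mono (k := k) e1
  rw [pow_add] at e2
  change |_ / Pool.Agent.P.MP_8be758_nt.L2.qq k ^ m - 1| ≤
    1 / Pool.Agent.P.MP_8be758_nt.L2.qq k ^ _
  have φ0 : 0 ≤ (Set.ncard {b : k[X] | b.degree < r.degree ∧ IsCoprime b r} : ℝ) :=
    Nat.cast_nonneg _
  have p1 := pow_pos hq m
  have p2 := pow_pos hq r.natDegree
  have p3 := pow_pos hq (N.natDegree / (2 * δ))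
  generalize Pool.Agent.P.MP_8be758_nt.L2.qq k ^ m = Q at *
  generalize Pool.Agent.P.MP_8be758_nt.L2.qq k ^ r.natDegree = R at *
  generalize Pool.Agent.P.MP_8be758_nt.L2.qq k ^ (N.natDegree / (2 * δ)) = S at *
  generalize Pool.Agent.P.MP_8be758_nt.L2.qq k ^ (N.natDegree / δ) = T at *
  generalize (Set.ncard {b : k[X] | b.degree < r.degree ∧ IsCoprime b r} : ℝ) = φ at *
  generalize (Set.ncard {x : k[X] | x.degree < (m : ℕ) ∧ Irreducible (N ^ 2 + x) ∧
    r ∣ N ^ 2 + x - a} : ℝ) = π at *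
  generalize Pool.Agent.P.MP_8be758_nt.L2.eu (-1) (Pool.Agent.P.MP_8be758_nt.L2.pf r) = u at *
  generalize 2 * (N.natDegree : ℝ) = n at *
  have e3 : n * φ * π / Q - 1 = φ * (n * π - Q / R * u) / Q := by
    field_simp
    linear_combination Q * hφ
  rw [e3, abs_div, abs_mul, abs_of_nonneg φ0, abs_of_pos p1, div_le_div_iff₀ p1 p3, one_mul]
  have a0 := abs_nonneg (n * π - Q / R * u)
  generalize |n * π - Q / R * u| = A at *
  calc φ * A * S ≤ R * A * S := by gcongr
    _ = A * (R * S) := by ring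
    _ ≤ A * T := by gcongr
    _ ≤ Q := key

end Pool.Agent.Results.MP_e94e4b_nt.LegendreChar2
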