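import Pool.Agent.P.MP_e94e4b_nt.RP.All

/-! Prime pairs `N^2 + x`, `(N + g)^2 - x` for a prescribed `g` in a window a power shorter than
`N^2` at every square of `k[T]`, `k` a finite field of characteristic two. -/

namespace Pool.Agent.Results.MP_e94e4b_nt.PrescribedShiftPairs

open Polynomial

theorem result : ∃ K : ℕ, 1 ≤ K ∧
    ∀ (k : Type) [Field k] [Finite k] [CharP k 2] (g : k[X]), g ≠ 0 →
      (Nat.card k = 2 → X * (X + 1) ∣ g) → ∃ n0 : ℕ, ∀ N : k[X], N.Monic → n0 ≤ N.natDegree →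
        Nat.card k ^ (2 * N.natDegree - N.natDegree / K) ≤
          512 * Nat.card k ^ (2 * g.natDegree) * N.natDegree ^ 2 *
            Set.ncard {x : k[X] | x.degree < (2 * N.natDegree - N.natDegree / K : ℕ) ∧
              Irreducible (N ^ 2 + x) ∧ Irreducible ((N + g) ^ 2 - x)} :=
  Pool.Agent.P.MP_e94e4b_nt.RP.last Pool.Agent.P.MP_e94e4b_nt.RP.t_FIN

end Pool.Agent.Results.MP_e94e4b_nt.PrescribedShiftPairs
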